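import Pool.Agent.Helper32_OMP.Stmts

/-!
# Module HENS: Hensel's lemma in several variables for truncated series
-/

set_option autoImplicit false
set_option linter.unusedVariables false
set_option linter.unusedSectionVars false

namespace Pool.Agent.Helper32_OMP.H48

open PowerSeries Finset Pool.Agent.Helper6_Mono

section Taylor

variable {k : Type} [Field k] {A : Type} [CommRing A] [Algebra k A] {T : Type} [Fintype T]

theorem taylor (I : Ideal A) (u h : T → A) (hh : ∀ a b, h a * h b ∈ I)
    (F : MvPolynomial T k) :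
    MvPolynomial.aeval (fun a => u a + h a) F - MvPolynomial.aeval u F
      - ∑ a, MvPolynomial.aeval u (MvPolynomial.pderiv a F) * h a ∈ I := by
  classical
  induction F using MvPolynomial.induction_on with
  | C c => simp
  | add p q hp hq =>
    have := I.add_mem hp hq
    convert this using 1
    simp only [map_add, add_mul, sum_add_distrib]
    ring
  | mul_X p b hp =>
    have h1 : ∑ a, MvPolynomial.aeval u (MvPolynomial.pderiv a (p * MvPolynomial.X b)) * h a
        = (∑ a, MvPolynomial.aeval u (MvPolynomial.pderiv a p) * h a) * u b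
          + MvPolynomial.aeval u p * h b := by
      have h2 : ∀ a, MvPolynomial.aeval u (MvPolynomial.pderiv a (p * MvPolynomial.X b)) * h a
          = (MvPolynomial.aeval u (MvPolynomial.pderiv a p) * h a) * u b
            + (if a = b then MvPolynomial.aeval u p * h a else 0) := by
        intro a
        rw [Derivation.leibniz, map_add, smul_eq_mul, smul_eq_mul, map_mul, map_mul,
          MvPolynomial.aeval_X, MvPolynomial.pderiv_X]
        by_cases hab : a = b
        · subst hab
          rw [if_pos rfl, Pi.single_eq_same, map_one]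
          ring
        · rw [if_neg hab, Pi.single_eq_of_ne (fun h' => hab h'.symm), map_zero]
          ring
      rw [sum_congr rfl fun a _ => h2 a, sum_add_distrib, sum_mul, sum_ite_eq']
      simp
    rw [h1, map_mul, map_mul, MvPolynomial.aeval_X, MvPolynomial.aeval_X]
    have h3 : (∑ a, MvPolynomial.aeval u (MvPolynomial.pderiv a p) * h a) * h b ∈ I := by
      rw [sum_mul]
      refine I.sum_mem fun a _ => ?_
      rw [mul_assoc]
      exact I.mul_mem_left _ (hh a b)
    have h4 := I.add_mem (I.mul_mem_right (u b + h b) hp) h3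
    convert h4 using 1
    ring

end Taylor

section Main

variable {k : Type} [Field k] {σ ι : Type} [Fintype σ]

theorem at0_pderiv (l : σ) (F : MvPolynomial (Option σ) k) :
    at0 (MvPolynomial.pderiv (some l) F) = MvPolynomial.pderiv l (at0 F) := by
  classical
  unfold at0
  induction F using MvPolynomial.induction_on with
  | C c => simp
  | add p q hp hq => simp only [map_add, hp, hq]
  | mul_X p b hp =>
    rw [Derivation.leibniz, map_add, smul_eq_mul, smul_eq_mul, map_mul, map_mul, map_mul,
      Derivation.leibniz, smul_eq_mul, smul_eq_mul, hp, MvPolynomial.aeval_X,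
      MvPolynomial.pderiv_X]
    cases b with
    | none => simp
    | some b =>
      by_cases hb : l = b
      · subst hb
        simp
      · have h1 : (Pi.single (some l) (1 : MvPolynomial (Option σ) k) : Option σ → _) (some b) = 0 :=
          Pi.single_eq_of_ne (fun h => hb (Option.some.inj h).symm) _
        have h2 : (Pi.single l (1 : MvPolynomial σ k) : σ → _) b = 0 :=
          Pi.single_eq_of_ne (fun h => hb h.symm) _
        simp only [Option.elim, MvPolynomial.pderiv_X, h1, h2, map_zero, mul_zero, zero_add]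

variable {S : Type} [CommRing S] [Algebra k S]

theorem coeff0_evt (F : MvPolynomial (Option σ) k) (γ : σ → S⟦X⟧) :
    coeff 0 (evt F γ) = MvPolynomial.aeval (fun l => coeff 0 (γ l)) (at0 F) := by
  unfold at0 evt
  induction F using MvPolynomial.induction_on with
  | C c =>
    rw [MvPolynomial.aeval_C, MvPolynomial.aeval_C, MvPolynomial.algebraMap_eq,
      MvPolynomial.aeval_C, PowerSeries.algebraMap_apply]
    simp
  | add p q hp hq => simp only [map_add, hp, hq]
  | mul_X p b hp =>
    have hm : ∀ a b : S⟦X⟧, coeff 0 (a * b) = coeff 0 a * coeff 0 b := by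
      intro a b
      simp
    rw [map_mul (MvPolynomial.aeval fun o : Option σ => o.elim (X : S⟦X⟧) γ),
      map_mul (MvPolynomial.aeval fun o : Option σ => o.elim (0 : MvPolynomial σ k)
        MvPolynomial.X), map_mul (MvPolynomial.aeval fun l => coeff 0 (γ l)), hm, hp,
      MvPolynomial.aeval_X, MvPolynomial.aeval_X]
    congr 1
    cases b with
    | none => simp
    | some b => simp

theorem tay (F : MvPolynomial (Option σ) k) (γ : σ → S⟦X⟧) (x : σ → S) (n : ℕ) (hn : 1 ≤ n)
    (j : ℕ) (hj : j ≤ n) :
    coeff j (evt F (fun l => γ l + C (x l) * X ^ n)) = coeff j (evt F γ) +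
      (if j = n then ∑ l, MvPolynomial.aeval (fun l => coeff 0 (γ l))
        (MvPolynomial.pderiv l (at0 F)) * x l else 0) := by
  classical
  have h1 := taylor (k := k) (Ideal.span {(X : S⟦X⟧) ^ (n + 1)})
    (fun o : Option σ => o.elim (X : S⟦X⟧) γ)
    (fun o : Option σ => o.elim 0 fun l => C (x l) * X ^ n) (by
      intro a b
      rw [Ideal.mem_span_singleton]
      cases a with
      | none => simp
      | some a =>
        cases b with
        | none => simp
        | some b =>
          refine ⟨C (x a) * C (x b) * X ^ (n - 1), ?_⟩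
          simp only [Option.elim]
          have : (X : S⟦X⟧) ^ n * X ^ n = X ^ (n + 1) * X ^ (n - 1) := by
            rw [← pow_add, ← pow_add]
            congr 1
            omega
          linear_combination (C (x a) * C (x b)) * this) F
  rw [Ideal.mem_span_singleton, X_pow_dvd_iff] at h1
  have h2 := h1 j (by omega)
  have h3 : (fun a : Option σ => a.elim (X : S⟦X⟧) γ + a.elim 0 fun l => C (x l) * X ^ n)
      = fun o : Option σ => o.elim (X : S⟦X⟧) (fun l => γ l + C (x l) * X ^ n) := by
    funext o
    cases o <;> simp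
  rw [h3, map_sub, map_sub, Fintype.sum_option] at h2
  simp only [Option.elim_none, Option.elim_some, mul_zero, zero_add] at h2
  have h4 : coeff j (∑ l, MvPolynomial.aeval (fun o : Option σ => o.elim (X : S⟦X⟧) γ)
      (MvPolynomial.pderiv (some l) F) * (C (x l) * X ^ n)) =
      (if j = n then ∑ l, MvPolynomial.aeval (fun l => coeff 0 (γ l))
        (MvPolynomial.pderiv l (at0 F)) * x l else 0) := by
    rw [map_sum]
    have h5 : ∀ l, coeff j (MvPolynomial.aeval (fun o : Option σ => o.elim (X : S⟦X⟧) γ)
        (MvPolynomial.pderiv (some l) F) * (C (x l) * X ^ n)) =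
        if j = n then MvPolynomial.aeval (fun l => coeff 0 (γ l))
          (MvPolynomial.pderiv l (at0 F)) * x l else 0 := by
      intro l
      rw [← mul_assoc, coeff_mul_X_pow']
      by_cases hjn : j = n
      · rw [if_pos hjn, if_pos hjn.ge, hjn, Nat.sub_self, coeff_mul_C]
        have := coeff0_evt (MvPolynomial.pderiv (some l) F) γ
        rw [at0_pderiv] at this
        rw [← this]
      · rw [if_neg hjn, if_neg (by omega)]
    rw [sum_congr rfl fun l _ => h5 l]
    by_cases hjn : j = n
    · simp only [if_pos hjn]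
    · simp only [if_neg hjn, sum_const_zero]
  rw [← h4]
  unfold evt
  linear_combination h2

variable [Fintype ι] [DecidableEq ι]

theorem solve (τ : ι ↪ σ) (D : ι → σ → S) (hD : IsUnit (Matrix.of fun i i' => D i (τ i')).det)
    (r : ι → S) (d : σ → S) :
    ∃! x : σ → S, (∀ l, l ∉ Set.range τ → x l = d l) ∧ ∀ i, ∑ l, D i l * x l = r i := by
  classical
  have hs : ∀ f : σ → S, ∑ l, f l = ∑ i, f (τ i) + ∑ l ∈ (univ.map τ)ᶜ, f l := by
    intro f
    rw [← sum_add_sum_compl (univ.map τ) f, sum_map]
  have hmem : ∀ l, l ∈ (univ.map τ)ᶜ → l ∉ Set.range τ := by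
    intro l hl ⟨i, hi⟩
    rw [mem_compl] at hl
    exact hl (mem_map.2 ⟨i, mem_univ i, hi⟩)
  set A : Matrix ι ι S := Matrix.of fun i i' => D i (τ i') with hA
  set r' : ι → S := fun i => r i - ∑ l ∈ (univ.map τ)ᶜ, D i l * d l with hr'
  have key : ∀ x : σ → S, (∀ l, l ∉ Set.range τ → x l = d l) →
      ((∀ i, ∑ l, D i l * x l = r i) ↔ A.mulVec (fun i => x (τ i)) = r') := by
    intro x hx
    constructor
    · intro h
      funext i
      have h1 := h i
      rw [hs] at h1
      rw [hr']
      simp only
      rw [← h1]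
      have h2 : ∑ l ∈ (univ.map τ)ᶜ, D i l * x l = ∑ l ∈ (univ.map τ)ᶜ, D i l * d l :=
        sum_congr rfl fun l hl => by rw [hx l (hmem l hl)]
      rw [h2, add_sub_cancel_right]
      rfl
    · intro h i
      rw [hs]
      have h2 : ∑ l ∈ (univ.map τ)ᶜ, D i l * x l = ∑ l ∈ (univ.map τ)ᶜ, D i l * d l :=
        sum_congr rfl fun l hl => by rw [hx l (hmem l hl)]
      have h3 : ∑ i', D i (τ i') * x (τ i') = r' i := congrFun h i
      rw [h2, h3, hr']
      simp
  have hAinj : Function.Injective A.mulVec :=
    Matrix.mulVec_injective_of_isUnit ((Matrix.isUnit_iff_isUnit_det A).2 hD)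
  refine ⟨fun l => if h : ∃ i, τ i = l then (A⁻¹.mulVec r') h.choose else d l, ?_, ?_⟩
  · have hτ : ∀ i, (fun l => if h : ∃ i, τ i = l then (A⁻¹.mulVec r') h.choose else d l) (τ i)
        = (A⁻¹.mulVec r') i := by
      intro i
      have hex : ∃ i', τ i' = τ i := ⟨i, rfl⟩
      simp only
      rw [dif_pos hex]
      congr 1
      exact τ.injective hex.choose_spec
    have h1 : ∀ l, l ∉ Set.range τ →
        (fun l => if h : ∃ i, τ i = l then (A⁻¹.mulVec r') h.choose else d l) l = d l := by
      intro l hl
      exact dif_neg hl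
    refine ⟨h1, (key _ h1).2 ?_⟩
    rw [show (fun i => (fun l => if h : ∃ i, τ i = l then (A⁻¹.mulVec r') h.choose else d l)
      (τ i)) = A⁻¹.mulVec r' from funext hτ, Matrix.mulVec_mulVec, Matrix.mul_nonsing_inv A hD,
      Matrix.one_mulVec]
  · rintro x ⟨hx1, hx2⟩
    have h1 := (key x hx1).1 hx2
    have h2 : (fun i => x (τ i)) = A⁻¹.mulVec r' := by
      apply hAinj
      rw [h1, Matrix.mulVec_mulVec, Matrix.mul_nonsing_inv A hD, Matrix.one_mulVec]
    funext l
    by_cases hl : ∃ i, τ i = l
    · rw [dif_pos hl, ← h2]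
      simp only
      rw [hl.choose_spec]
    · rw [dif_neg hl, hx1 l hl]

theorem hens_aux (F : ι → MvPolynomial (Option σ) k) (τ : ι ↪ σ) (y : σ → S)
    (hy : ∀ i, MvPolynomial.aeval y (at0 (F i)) = 0)
    (hD : IsUnit (Matrix.of fun i i' : ι =>
      MvPolynomial.aeval y (MvPolynomial.pderiv (τ i') (at0 (F i)))).det)
    (v : ι → S⟦X⟧) (δ : σ → S⟦X⟧) (hv : ∀ i, coeff 0 (v i) = 0) (M : ℕ) :
    ∃! γ : σ → S⟦X⟧, (∀ l j, M < j → coeff j (γ l) = 0) ∧ (∀ l, coeff 0 (γ l) = y l) ∧
      (∀ l, l ∉ Set.range τ → ∀ j, 1 ≤ j → j ≤ M → coeff j (γ l) = coeff j (δ l)) ∧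
      ∀ i, ∀ j ≤ M, coeff j (evt (F i) γ) = coeff j (v i) := by
  classical
  induction M with
  | zero =>
    refine ⟨fun l => C (y l), ⟨fun l j hj => ?_, fun l => ?_, fun l _ j h1 h2 => ?_,
      fun i j hj => ?_⟩, ?_⟩
    · rw [coeff_C, if_neg (by omega)]
    · simp
    · omega
    · obtain rfl : j = 0 := by omega
      rw [coeff0_evt, hv i]
      simpa using hy i
    · rintro γ ⟨h1, h2, -, -⟩
      funext l
      ext j
      rcases Nat.eq_zero_or_pos j with rfl | hj
      · rw [h2 l]; simp
      · rw [h1 l j hj, coeff_C, if_neg (by omega)]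
  | succ M ih =>
    obtain ⟨γ, ⟨g1, g2, g3, g4⟩, gu⟩ := ih
    -- the linear system
    obtain ⟨x, ⟨x1, x2⟩, xu⟩ := solve τ
      (fun i l => MvPolynomial.aeval y (MvPolynomial.pderiv l (at0 (F i)))) hD
      (fun i => coeff (M + 1) (v i) - coeff (M + 1) (evt (F i) γ))
      (fun l => coeff (M + 1) (δ l))
    have hg2 : (fun l => coeff 0 (γ l)) = y := funext g2
    have hc : ∀ (x : σ → S) (l : σ) (j : ℕ),
        coeff j (γ l + C (x l) * X ^ (M + 1)) = coeff j (γ l) + if j = M + 1 then x l else 0 := by
      intro x l j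
      rw [map_add, coeff_C_mul, coeff_X_pow]
      split_ifs <;> simp
    refine ⟨fun l => γ l + C (x l) * X ^ (M + 1), ⟨fun l j hj => ?_, fun l => ?_,
      fun l hl j h1 h2 => ?_, fun i j hj => ?_⟩, ?_⟩
    · rw [hc, g1 l j (by omega), if_neg (by omega), add_zero]
    · rw [hc, g2 l, if_neg (by omega), add_zero]
    · rw [hc]
      by_cases hjM : j = M + 1
      · rw [if_pos hjM, hjM, g1 l (M + 1) (by omega), zero_add, x1 l hl]
      · rw [if_neg hjM, add_zero, g3 l hl j h1 (by omega)]
    · rw [tay (F i) γ x (M + 1) (by omega) j hj]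
      by_cases hjM : j = M + 1
      · rw [if_pos hjM, hg2, x2 i, hjM]
        ring
      · rw [if_neg hjM, add_zero, g4 i j (by omega)]
    · rintro γ' ⟨h1, h2, h3, h4⟩
      set x' : σ → S := fun l => coeff (M + 1) (γ' l) with hx'
      set γ₀ : σ → S⟦X⟧ := fun l => γ' l - C (x' l) * X ^ (M + 1) with hγ₀
      have hγ' : γ' = fun l => γ₀ l + C (x' l) * X ^ (M + 1) := by
        funext l
        rw [hγ₀]
        simp
      have hc0 : ∀ (l : σ) (j : ℕ),
          coeff j (γ₀ l) = coeff j (γ' l) - if j = M + 1 then x' l else 0 := by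
        intro l j
        rw [hγ₀]
        simp only
        rw [map_sub, coeff_C_mul, coeff_X_pow]
        split_ifs <;> simp
      have hγ₀γ : γ₀ = γ := by
        apply gu
        refine ⟨fun l j hj => ?_, fun l => ?_, fun l hl j j1 j2 => ?_, fun i j hj => ?_⟩
        · rw [hc0]
          by_cases hjM : j = M + 1
          · rw [if_pos hjM, hjM, hx', sub_self]
          · rw [if_neg hjM, h1 l j (by omega), sub_zero]
        · rw [hc0, if_neg (by omega), sub_zero, h2 l]
        · rw [hc0, if_neg (by omega), sub_zero, h3 l hl j j1 (by omega)]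
        · have := h4 i j (by omega)
          rw [hγ', tay (F i) γ₀ x' (M + 1) (by omega) j (by omega), if_neg (by omega),
            add_zero] at this
          exact this
      rw [hγ₀γ] at hγ'
      have hxx : x' = x := by
        apply xu
        refine ⟨fun l hl => h3 l hl (M + 1) (by omega) le_rfl, fun i => ?_⟩
        have := h4 i (M + 1) le_rfl
        rw [hγ', tay (F i) γ x' (M + 1) (by omega) (M + 1) le_rfl, if_pos rfl, hg2] at this
        rw [← this]
        ring
      rw [hγ', hxx]

end Main

theorem hens : HensStmt := by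
  intro k _ σ ι _ _ _ F τ S _ _ y hy hD M v δ hv
  exact hens_aux F τ y hy hD v δ hv M

end Pool.Agent.Helper32_OMP.H48
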