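import Pool.Agent.Helper32_OMP.Stmts
import Mathlib.RingTheory.Nullstellensatz

/-!
# Module NUL: Nullstellensatz over a subfield of the complex numbers
-/

set_option autoImplicit false
set_option linter.unusedVariables false
set_option linter.unusedSectionVars false

namespace Pool.Agent.Helper32_OMP.H48

open Finset

variable {k : Type} [Field k] [Algebra k ℂ] {σ : Type}

/-- apply a linear map to the coefficients -/
noncomputable def desc (π : ℂ →ₗ[k] k) (a : MvPolynomial σ ℂ) : MvPolynomial σ k :=
  ∑ m ∈ a.support, MvPolynomial.monomial m (π (MvPolynomial.coeff m a))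

theorem coeff_desc (π : ℂ →ₗ[k] k) (a : MvPolynomial σ ℂ) (m : σ →₀ ℕ) :
    MvPolynomial.coeff m (desc π a) = π (MvPolynomial.coeff m a) := by
  classical
  unfold desc
  rw [MvPolynomial.coeff_sum]
  simp only [MvPolynomial.coeff_monomial]
  rw [sum_ite_eq']
  split_ifs with h
  · rfl
  · rw [MvPolynomial.notMem_support_iff] at h
    rw [h, map_zero]

theorem desc_add (π : ℂ →ₗ[k] k) (a b : MvPolynomial σ ℂ) :
    desc π (a + b) = desc π a + desc π b := by
  ext m
  rw [coeff_desc, MvPolynomial.coeff_add, MvPolynomial.coeff_add, coeff_desc, coeff_desc, map_add]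

theorem desc_zero (π : ℂ →ₗ[k] k) : desc π (0 : MvPolynomial σ ℂ) = 0 := by
  ext m
  rw [coeff_desc, MvPolynomial.coeff_zero, MvPolynomial.coeff_zero, map_zero]

theorem desc_mul_map (π : ℂ →ₗ[k] k) (a : MvPolynomial σ ℂ) (e : MvPolynomial σ k) :
    desc π (a * MvPolynomial.map (algebraMap k ℂ) e) = desc π a * e := by
  classical
  ext m
  rw [coeff_desc, MvPolynomial.coeff_mul, MvPolynomial.coeff_mul, map_sum]
  refine sum_congr rfl fun p _ => ?_
  rw [MvPolynomial.coeff_map, coeff_desc, mul_comm, ← Algebra.smul_def, map_smul, smul_eq_mul,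
    mul_comm]

theorem desc_map (π : ℂ →ₗ[k] k) (hπ : π 1 = 1) (e : MvPolynomial σ k) :
    desc π (MvPolynomial.map (algebraMap k ℂ) e) = e := by
  ext m
  rw [coeff_desc, MvPolynomial.coeff_map, Algebra.algebraMap_eq_smul_one, map_smul, hπ,
    smul_eq_mul, mul_one]

theorem exists_proj : ∃ π : ℂ →ₗ[k] k, π 1 = 1 := by
  obtain ⟨π, hπ⟩ := LinearMap.exists_leftInverse_of_injective (Algebra.linearMap k ℂ) (by
    rw [LinearMap.ker_eq_bot]
    exact FaithfulSMul.algebraMap_injective k ℂ)
  refine ⟨π, ?_⟩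
  have := congrArg (fun f => f 1) hπ
  simpa using this

theorem desc_span (π : ℂ →ₗ[k] k) (E : Set (MvPolynomial σ k)) (a : MvPolynomial σ ℂ)
    (ha : a ∈ Ideal.span (MvPolynomial.map (algebraMap k ℂ) '' E)) :
    desc π a ∈ Ideal.span E := by
  have h : ∀ c : MvPolynomial σ ℂ, desc π (c * a) ∈ Ideal.span E := by
    induction ha using Submodule.span_induction with
    | mem x hx =>
      obtain ⟨e, he, rfl⟩ := hx
      intro c
      rw [desc_mul_map]
      exact Ideal.mul_mem_left _ _ (Ideal.subset_span he)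
    | zero => intro c; rw [mul_zero, desc_zero]; exact Ideal.zero_mem _
    | add x y _ _ hx hy =>
      intro c
      rw [mul_add, desc_add]
      exact Ideal.add_mem _ (hx c) (hy c)
    | smul b x _ hx =>
      intro c
      rw [smul_eq_mul, ← mul_assoc]
      exact hx _
  have := h 1
  rwa [one_mul] at this

theorem nul : NulStmt := by
  intro k _ _ σ _ E H hH
  obtain ⟨π, hπ⟩ := exists_proj (k := k)
  have h1 : MvPolynomial.map (algebraMap k ℂ) H ∈ MvPolynomial.vanishingIdeal ℂ
      (MvPolynomial.zeroLocus ℂ (Ideal.span (MvPolynomial.map (algebraMap k ℂ) '' E))) := by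
    rw [MvPolynomial.mem_vanishingIdeal_iff]
    intro z hz
    rw [MvPolynomial.mem_zeroLocus_iff] at hz
    have h2 := hH z fun e he => by
      have := hz _ (Ideal.subset_span (Set.mem_image_of_mem _ he))
      rwa [MvPolynomial.aeval_map_algebraMap] at this
    rwa [MvPolynomial.aeval_map_algebraMap]
  rw [MvPolynomial.vanishingIdeal_zeroLocus_eq_radical] at h1
  obtain ⟨N, hN⟩ := h1
  refine ⟨N, ?_⟩
  rw [← map_pow] at hN
  have := desc_span π E _ hN
  rwa [desc_map π hπ] at this

end Pool.Agent.Helper32_OMP.H48
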